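import Pool.Agent.X225.Sa.Count

/-!
# MP_aa036a_co: permutations strongly avoiding 321 and 1342

For every `n ≥ 1` the number of permutations `π` of an `n`-element set such that `π` and `π²`
both avoid `321` and `1342` is `2 F_{n+2} - n - 2`.
-/

namespace Pool.Agent.Results.MP_aa036a_co.StrongAvoid

open Equiv

/-- `π` contains the pattern given by the word `τ` of length `m`: there are positions
`f 0 < f 1 < ⋯ < f (m-1)` at which the values of `π` are in the same relative order as the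
letters of `τ`. -/
def Contains {m n : ℕ} (τ : Fin m → ℕ) (π : Perm (Fin n)) : Prop :=
  ∃ f : Fin m → Fin n, StrictMono f ∧ ∀ a b, π (f a) < π (f b) ↔ τ a < τ b

/-- `π` strongly avoids the patterns `321` and `1342`: neither `π` nor `π² = π ∘ π` contains one
of them. -/
def StronglyAvoids {n : ℕ} (π : Perm (Fin n)) : Prop :=
  ¬ Contains ![3, 2, 1] π ∧ ¬ Contains ![1, 3, 4, 2] π ∧
    ¬ Contains ![3, 2, 1] (π * π) ∧ ¬ Contains ![1, 3, 4, 2] (π * π)

open X225.Sa

lemma a321_iff {n : ℕ} (π : Perm (Fin n)) : A321 (ext n π) ↔ ¬ Contains ![3, 2, 1] π := by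
  constructor
  · rintro h ⟨f, hf, hτ⟩
    have h01 : f 0 < f 1 := hf (by decide)
    have h12 : f 1 < f 2 := hf (by decide)
    refine h (f 0) (f 1) (f 2) h01 h12 ⟨?_, ?_⟩
    · rw [ext_lt π (f 0).2, ext_lt π (f 1).2]
      exact (hτ 1 0).2 (by decide)
    · rw [ext_lt π (f 1).2, ext_lt π (f 2).2]
      exact (hτ 2 1).2 (by decide)
  · intro h
    apply a321_of (n := n) (fun i hi => ext_ge π hi)
    intro i j k hij hjk hk
    have hj : j < n := by omega
    have hi : i < n := by omega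
    rw [ext_lt π hi, ext_lt π hj, ext_lt π hk]
    rintro ⟨h1, h2⟩
    apply h
    have h1' : π ⟨j, hj⟩ < π ⟨i, hi⟩ := h1
    have h2' : π ⟨k, hk⟩ < π ⟨j, hj⟩ := h2
    have h3' := h2'.trans h1'
    refine ⟨![⟨i, hi⟩, ⟨j, hj⟩, ⟨k, hk⟩], ?_, ?_⟩
    · intro a b hab
      fin_cases a <;> fin_cases b <;> simp [Fin.lt_def] at hab ⊢ <;> omega
    · intro a b
      fin_cases a <;> fin_cases b <;> simp [h1', h2', h3', h1'.le, h2'.le, h3'.le]

lemma a1342_iff {n : ℕ} (π : Perm (Fin n)) :
    A1342 (ext n π) ↔ ¬ Contains ![1, 3, 4, 2] π := by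
  constructor
  · rintro h ⟨f, hf, hτ⟩
    have h01 : f 0 < f 1 := hf (by decide)
    have h12 : f 1 < f 2 := hf (by decide)
    have h23 : f 2 < f 3 := hf (by decide)
    refine h (f 0) (f 1) (f 2) (f 3) h01 h12 h23 ⟨?_, ?_, ?_⟩
    · rw [ext_lt π (f 0).2, ext_lt π (f 3).2]
      exact (hτ 0 3).2 (by decide)
    · rw [ext_lt π (f 1).2, ext_lt π (f 3).2]
      exact (hτ 3 1).2 (by decide)
    · rw [ext_lt π (f 1).2, ext_lt π (f 2).2]
      exact (hτ 1 2).2 (by decide)
  · intro h
    apply a1342_of (n := n) (fun i hi => ext_ge π hi)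
    intro i j k l hij hjk hkl hl
    have hk : k < n := by omega
    have hj : j < n := by omega
    have hi : i < n := by omega
    rw [ext_lt π hi, ext_lt π hj, ext_lt π hk, ext_lt π hl]
    rintro ⟨h1, h2, h3⟩
    apply h
    have h1' : π ⟨i, hi⟩ < π ⟨l, hl⟩ := h1
    have h2' : π ⟨l, hl⟩ < π ⟨j, hj⟩ := h2
    have h3' : π ⟨j, hj⟩ < π ⟨k, hk⟩ := h3
    have h4' := h1'.trans h2'
    have h5' := h2'.trans h3'
    have h6' := h4'.trans h3'
    refine ⟨![⟨i, hi⟩, ⟨j, hj⟩, ⟨k, hk⟩, ⟨l, hl⟩], ?_, ?_⟩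
    · intro a b hab
      fin_cases a <;> fin_cases b <;> simp [Fin.lt_def] at hab ⊢ <;> omega
    · intro a b
      fin_cases a <;> fin_cases b <;>
        simp [h1', h2', h3', h4', h5', h6', h1'.le, h2'.le, h3'.le, h4'.le, h5'.le, h6'.le]

lemma strong_iff {n : ℕ} (π : Perm (Fin n)) : StronglyAvoids π ↔ Good n (ext n π) := by
  constructor
  · rintro ⟨h1, h2, h3, h4⟩
    refine ⟨fun i hi => ext_ge π hi, (a321_iff π).2 h1, (a1342_iff π).2 h2, ?_, ?_⟩
    · rw [← ext_mul]; exact (a321_iff _).2 h3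
    · rw [← ext_mul]; exact (a1342_iff _).2 h4
  · intro h
    refine ⟨(a321_iff π).1 h.a1, (a1342_iff π).1 h.a2, ?_, ?_⟩
    · have := h.b1
      rw [← ext_mul] at this
      exact (a321_iff _).1 this
    · have := h.b2
      rw [← ext_mul] at this
      exact (a1342_iff _).1 this

/-- **Theorem.** For every positive integer `n`, the number of permutations of an `n`-element
set that strongly avoid `321` and `1342` is `2 F_{n+2} - n - 2` (`F` the Fibonacci numbers,
`F_1 = F_2 = 1`). -/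
theorem result : ∀ n : ℕ, 1 ≤ n →
    (Nat.card {π : Perm (Fin n) // StronglyAvoids π} : ℤ) = 2 * (Nat.fib (n + 2) : ℤ) - n - 2 := by
  intro n hn
  have h1 : Nat.card {π : Perm (Fin n) // StronglyAvoids π} = (G n).ncard := by
    have h2 : G n = ext n '' {π | StronglyAvoids π} := by
      apply Set.ext
      intro f
      constructor
      · intro hf
        obtain ⟨π, rfl⟩ := exists_ext hf.fix
        exact ⟨π, (strong_iff π).2 hf, rfl⟩
      · rintro ⟨π, hπ, rfl⟩
        exact (strong_iff π).1 hπ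
    rw [h2, Set.ncard_image_of_injective _ (ext_inj n)]
    rfl
  have h3 := card_G n hn
  rw [h1]
  have h4 : ((G n).ncard : ℤ) + n + 2 = 2 * (Nat.fib (n + 2) : ℤ) := by exact_mod_cast h3
  linarith

end Pool.Agent.Results.MP_aa036a_co.StrongAvoid
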